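import Pool.Agent.X225.St.Basic

/-!
# A Fraisse structure with strong amalgamation and without sharply 2-transitive actions

The domain consists of two copies of `ℚ`.  The group `Γ` consists of the permutations that are monotone
on both copies, either map each copy to itself or exchange the copies, and are such that the directions
of the monotone maps are equal if the copies are fixed and different if the copies are exchanged.  The
square of an element exchanging the copies reverses both orders, so no involution in the group exchanges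
a point of one copy and a point of the other copy.  The structure has the orbits of `Γ` on tuples as its
relations.
-/

universe u v w

namespace Pool.Agent.Results.MP_d71e54_al.NoSharplyTwoTransitive

open FirstOrder FirstOrder.Language CategoryTheory

section Defs

variable (L : FirstOrder.Language.{u, v}) (M : Type w) [L.Structure M]

/-- strong amalgamation of a class of structures -/
def StrongAmalgamation {L : FirstOrder.Language.{u, v}} (K : Set (Bundled.{w} L.Structure)) : Prop :=
  ∀ (A B C : Bundled.{w} L.Structure) (f : A ↪[L] B) (g : A ↪[L] C), A ∈ K → B ∈ K → C ∈ K →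
    ∃ (D : Bundled.{w} L.Structure) (f' : B ↪[L] D) (g' : C ↪[L] D), D ∈ K ∧
      f'.comp f = g'.comp g ∧ Set.range f' ∩ Set.range g' = Set.range (f'.comp f)

/-- A relational Fraisse structure with strong amalgamation: a countably infinite ultrahomogeneous
structure in a relational language whose age has strong amalgamation. -/
structure IsFraisseStructure : Prop where
  relational : L.IsRelational
  countable : Countable M
  infinite : Infinite M
  ultrahomogeneous : L.IsUltrahomogeneous M
  strongAmalgamation : StrongAmalgamation (L.age M)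

/-- `a_i ↦ b_i` is an isomorphism of the induced substructures on the entries of the tuples of distinct
elements `a` and `b` (the language is relational): the tuples have the same quantifier-free type. -/
def SameType {k : ℕ} (a b : Fin k → M) : Prop :=
  ∀ (n : ℕ) (R : L.Relations n) (j : Fin n → Fin k),
    Structure.RelMap R (a ∘ j) ↔ Structure.RelMap R (b ∘ j)

/-- The action of `G` on `M` is by automorphisms and structurally sharply `k`-transitive. -/
def IsSharplyTransitive (k : ℕ) (G : Type*) [Group G] [MulAction G M] : Prop :=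
  (∀ (g : G) (n : ℕ) (R : L.Relations n) (x : Fin n → M),
    Structure.RelMap R (fun i => g • x i) ↔ Structure.RelMap R x) ∧
  ∀ a b : Fin k → M, Function.Injective a → Function.Injective b → SameType L M a b →
    ∃! g : G, ∀ i, g • a i = b i

end Defs

/-! ### The domain and the group -/

/-- The relation `P(x, y, z, w)`: `x`, `y` are different elements of one copy of `ℚ`, `z`, `w` different
elements of the other copy, and the direction from `x` to `y` and the direction from `z` to `w` are equal
if `x` is in the first copy, and different if `x` is in the second copy. -/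
def P (x y z w : ℚ × Bool) : Prop :=
  x.2 = y.2 ∧ z.2 = w.2 ∧ x.2 ≠ z.2 ∧ x.1 ≠ y.1 ∧ z.1 ≠ w.1 ∧
    (x.2 = false → (x.1 < y.1 ↔ z.1 < w.1)) ∧ (x.2 = true → (x.1 < y.1 ↔ w.1 < z.1))

/-- the group of permutations preserving `P` -/
def Γ : Subgroup (Equiv.Perm (ℚ × Bool)) where
  carrier := {g | ∀ x y z w, P (g x) (g y) (g z) (g w) ↔ P x y z w}
  one_mem' := fun _ _ _ _ => Iff.rfl
  mul_mem' := fun {g h} hg hh x y z w => (hg (h x) (h y) (h z) (h w)).trans (hh x y z w)
  inv_mem' := fun {g} hg x y z w => by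
    have e : ∀ x, g (g⁻¹ x) = x := fun x => g.apply_symm_apply x
    have h1 := hg (g⁻¹ x) (g⁻¹ y) (g⁻¹ z) (g⁻¹ w)
    simp only [e] at h1
    exact h1.symm

theorem mem_Γ (g : Equiv.Perm (ℚ × Bool)) :
    g ∈ Γ ↔ ∀ x y z w, P (g x) (g y) (g z) (g w) ↔ P x y z w := Iff.rfl

/-- the language: a relation symbol for every tuple, to be interpreted by the orbit of the tuple -/
def LG : FirstOrder.Language.{0, 0} := ⟨fun _ => Empty, fun n => Fin n → ℚ × Bool⟩

instance : LG.IsRelational := fun _ => by
  change IsEmpty Empty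
  infer_instance

/-- the relation symbol for the orbit of `t` -/
def orb {n : ℕ} (t : Fin n → ℚ × Bool) : LG.Relations n := t

/-- the structure whose relations are the orbits of `Γ` on tuples -/
instance instS : LG.Structure (ℚ × Bool) where
  funMap := fun {_} f _ => Empty.elim f
  RelMap := fun {_} t x => ∃ g ∈ Γ, x = g ∘ t

theorem relMap_orb {n : ℕ} (t x : Fin n → ℚ × Bool) :
    Structure.RelMap (orb t) x ↔ ∃ g ∈ Γ, x = g ∘ t := Iff.rfl

theorem relMap_smul {n : ℕ} (g : Equiv.Perm (ℚ × Bool)) (hg : g ∈ Γ) (R : LG.Relations n)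
    (x : Fin n → ℚ × Bool) : Structure.RelMap R (g ∘ x) ↔ Structure.RelMap R x := by
  constructor
  · rintro ⟨h, hh, he⟩
    refine ⟨g⁻¹ * h, Γ.mul_mem (Γ.inv_mem hg) hh, ?_⟩
    funext i
    have h1 := congrFun he i
    change g (x i) = h (R i) at h1
    change x i = g.symm (h (R i))
    rw [← h1, Equiv.symm_apply_apply]
  · rintro ⟨h, hh, rfl⟩
    exact ⟨g * h, Γ.mul_mem hg hh, rfl⟩

/-- elements of `Γ` are automorphisms -/
def autOf (g : Equiv.Perm (ℚ × Bool)) (hg : g ∈ Γ) : (ℚ × Bool) ≃[LG] (ℚ × Bool) where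
  toEquiv := g
  map_fun' := fun {_} f _ => Empty.elim f
  map_rel' := fun {_} R x => relMap_smul g hg R x

theorem ultrahomogeneous : LG.IsUltrahomogeneous (ℚ × Bool) := by
  classical
  intro S hS f
  have hfin : Finite S := hS.finite
  obtain ⟨n, ⟨e⟩⟩ := Finite.exists_equiv_fin S
  let t : Fin n → S := e.symm
  have h1 : Structure.RelMap (orb fun i => (t i : ℚ × Bool)) t := by
    rw [← S.subtype.map_rel]
    exact ⟨1, Γ.one_mem, rfl⟩
  rw [← f.map_rel] at h1
  obtain ⟨g, hg, h2⟩ := h1
  refine ⟨autOf g hg, ?_⟩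
  ext1 s
  have h3 := congrFun h2 (e s)
  change f (e.symm (e s)) = g (e.symm (e s) : S) at h3
  rw [Equiv.symm_apply_apply] at h3
  exact h3

/-! ### Order automorphisms -/

theorem exists_orderIso (p : Order.PartialIso ℚ ℚ) : ∃ e : ℚ ≃o ℚ, ∀ q ∈ p.val, e q.1 = q.2 := by
  classical
  let to_cofinal : ℚ ⊕ ℚ → Order.Cofinal (Order.PartialIso ℚ ℚ) := fun p ↦
    Sum.recOn p (Order.PartialIso.definedAtLeft ℚ) (Order.PartialIso.definedAtRight ℚ)
  let our_ideal : Order.Ideal (Order.PartialIso ℚ ℚ) := Order.idealOfCofinals p to_cofinal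
  let F a := Order.PartialIso.funOfIdeal a our_ideal
    (Order.cofinal_meets_idealOfCofinals _ to_cofinal (Sum.inl a))
  let G b := Order.PartialIso.invOfIdeal b our_ideal
    (Order.cofinal_meets_idealOfCofinals _ to_cofinal (Sum.inr b))
  refine ⟨OrderIso.ofCmpEqCmp (fun a ↦ (F a).val) (fun b ↦ (G b).val) fun a b ↦ ?_, ?_⟩
  · rcases (F a).prop with ⟨f, hf, ha⟩
    rcases (G b).prop with ⟨g, hg, hb⟩
    rcases our_ideal.directed _ hf _ hg with ⟨m, _, fm, gm⟩
    exact m.prop (a, _) (fm ha) (_, b) (gm hb)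
  · rintro ⟨a, b⟩ hq
    change (F a).val = b
    rcases (F a).prop with ⟨f, hf, ha⟩
    rcases our_ideal.directed _ hf _ (Order.mem_idealOfCofinals p to_cofinal) with ⟨m, _, fm, gm⟩
    have h1 := m.prop (a, _) (fm ha) (a, b) (gm hq)
    simp only [cmp_self_eq_eq] at h1
    exact (cmp_eq_eq_iff _ _).1 h1.symm

/-- an order automorphism fixing finitely many points and moving another point off a finite set -/
theorem exists_move (A : Finset ℚ) (y : ℚ) (Z : Finset ℚ) (hy : y ∉ A) :
    ∃ e : ℚ ≃o ℚ, (∀ a ∈ A, e a = a) ∧ e y ∉ Z := by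
  classical
  -- a point `y' > y` such that no point of `A` is in `[y, y']`
  have hex : ∃ y' : ℚ, y < y' ∧ (∀ a ∈ A, y < a → y' < a) ∧ y' ∉ Z := by
    obtain ⟨m, hm1, hm2⟩ := Order.exists_between_finsets (α := ℚ) {y} (A.filter fun a => y < a)
      (by
        intro x hx z hz
        rw [Finset.mem_singleton.1 hx]
        exact (Finset.mem_filter.1 hz).2)
    have hym : y < m := hm1 y (Finset.mem_singleton_self y)
    obtain ⟨y', hy'1, hy'2⟩ := (Set.Ioo_infinite hym).exists_notMem_finset Z
    exact ⟨y', hy'1.1, fun a ha hya => hy'1.2.trans (hm2 a (Finset.mem_filter.2 ⟨ha, hya⟩)), hy'2⟩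
  obtain ⟨y', h1, h2, h3⟩ := hex
  have hcmp : ∀ a ∈ A, cmp a y = cmp a y' := by
    intro a ha
    rcases lt_trichotomy a y with h | h | h
    · rw [(cmp_eq_lt_iff a y).2 h, (cmp_eq_lt_iff a y').2 (h.trans h1)]
    · exact absurd (h ▸ ha) hy
    · rw [(cmp_eq_gt_iff a y).2 h, (cmp_eq_gt_iff a y').2 (h2 a ha h)]
  let p : Order.PartialIso ℚ ℚ := ⟨insert (y, y') (A.image fun a => (a, a)), by
    intro q hq r hr
    rw [Finset.mem_insert, Finset.mem_image] at hq hr
    rcases hq with rfl | ⟨a, ha, rfl⟩ <;> rcases hr with rfl | ⟨b, hb, rfl⟩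
    · simp only [cmp_self_eq_eq]
    · change cmp y b = cmp y' b
      rw [cmp_eq_cmp_symm]
      exact hcmp b hb
    · exact hcmp a ha
    · rfl⟩
  obtain ⟨e, he⟩ := exists_orderIso p
  refine ⟨e, fun a ha => ?_, ?_⟩
  · exact he (a, a) (Finset.mem_insert_of_mem (Finset.mem_image_of_mem _ ha))
  · have h4 : e y = y' := he (y, y') (Finset.mem_insert_self _ _)
    rw [h4]
    exact h3

/-- an order automorphism acting on one copy -/
def lift (e : ℚ ≃o ℚ) (c : Bool) : Equiv.Perm (ℚ × Bool) where
  toFun x := (if x.2 = c then e x.1 else x.1, x.2)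
  invFun x := (if x.2 = c then e.symm x.1 else x.1, x.2)
  left_inv x := by
    rcases x with ⟨x, b⟩
    by_cases h : b = c
    · simp [h]
    · simp [h]
  right_inv x := by
    rcases x with ⟨x, b⟩
    by_cases h : b = c
    · simp [h]
    · simp [h]

theorem lift_lt (e : ℚ ≃o ℚ) (c : Bool) (x y : ℚ × Bool) (h : x.2 = y.2) :
    (lift e c x).1 < (lift e c y).1 ↔ x.1 < y.1 := by
  change (if x.2 = c then e x.1 else x.1) < (if y.2 = c then e y.1 else y.1) ↔ x.1 < y.1
  rw [h]
  by_cases hc : y.2 = c
  · rw [if_pos hc, if_pos hc, e.lt_iff_lt]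
  · rw [if_neg hc, if_neg hc]

theorem lift_ne (e : ℚ ≃o ℚ) (c : Bool) (x y : ℚ × Bool) (h : x.2 = y.2) :
    (lift e c x).1 ≠ (lift e c y).1 ↔ x.1 ≠ y.1 := by
  rw [← lt_or_lt_iff_ne, ← lt_or_lt_iff_ne, lift_lt e c x y h, lift_lt e c y x h.symm]

theorem lift_mem (e : ℚ ≃o ℚ) (c : Bool) : lift e c ∈ Γ := by
  intro x y z w
  unfold P
  have e2 : ∀ x, (lift e c x).2 = x.2 := fun _ => rfl
  rw [e2, e2, e2, e2]
  constructor
  · rintro ⟨h1, h2, h3, h4, h5, h6, h7⟩
    rw [lift_ne e c x y h1] at h4
    rw [lift_ne e c z w h2] at h5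
    rw [lift_lt e c x y h1, lift_lt e c z w h2] at h6
    rw [lift_lt e c x y h1, lift_lt e c w z h2.symm] at h7
    exact ⟨h1, h2, h3, h4, h5, h6, h7⟩
  · rintro ⟨h1, h2, h3, h4, h5, h6, h7⟩
    rw [lift_ne e c x y h1, lift_ne e c z w h2, lift_lt e c x y h1, lift_lt e c z w h2,
      lift_lt e c w z h2.symm]
    exact ⟨h1, h2, h3, h4, h5, h6, h7⟩

theorem na : X225.St.NA LG (ℚ × Bool) := by
  classical
  intro A y Z hy
  obtain ⟨e, he1, he2⟩ := exists_move ((A.filter fun a => a.2 = y.2).image Prod.fst) y.1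
    (Z.image Prod.fst) (by
      intro h
      obtain ⟨a, ha, hay⟩ := Finset.mem_image.1 h
      rw [Finset.mem_filter] at ha
      exact hy ((Prod.ext hay ha.2 : a = y) ▸ ha.1))
  refine ⟨autOf (lift e y.2) (lift_mem e y.2), fun a ha => ?_, fun h => ?_⟩
  · change ((if a.2 = y.2 then e a.1 else a.1, a.2) : ℚ × Bool) = a
    by_cases hc : a.2 = y.2
    · rw [if_pos hc, he1 a.1 (Finset.mem_image_of_mem _ (Finset.mem_filter.2 ⟨ha, hc⟩))]
    · rw [if_neg hc]
  · apply he2
    refine Finset.mem_image.2 ⟨_, h, ?_⟩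
    change (if y.2 = y.2 then e y.1 else y.1) = e y.1
    rw [if_pos rfl]

theorem isFraisse : IsFraisseStructure LG (ℚ × Bool) where
  relational := inferInstance
  countable := inferInstance
  infinite := inferInstance
  ultrahomogeneous := ultrahomogeneous
  strongAmalgamation := X225.St.strongAmalgamation ultrahomogeneous na

/-! ### The exchange -/

/-- the permutation `(x, 0) ↦ (x, 1)`, `(x, 1) ↦ (-x, 0)` -/
def ex : Equiv.Perm (ℚ × Bool) where
  toFun x := (if x.2 = false then x.1 else -x.1, !x.2)
  invFun x := (if x.2 = true then x.1 else -x.1, !x.2)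
  left_inv x := by
    rcases x with ⟨x, b⟩
    cases b <;> simp
  right_inv x := by
    rcases x with ⟨x, b⟩
    cases b <;> simp

theorem ex_mem : ex ∈ Γ := by
  rintro ⟨x, b⟩ ⟨y, b'⟩ ⟨z, c⟩ ⟨w, c'⟩
  unfold P ex
  cases b <;> cases b' <;> cases c <;> cases c' <;>
    simp
  intro hxy hzw
  rcases lt_or_gt_of_ne hxy with h | h <;> rcases lt_or_gt_of_ne hzw with h' | h' <;>
    simp [h, h', not_lt.2 h.le, not_lt.2 h'.le]

theorem not_sharply (G : Type u) [Group G] [MulAction G (ℚ × Bool)] :
    ¬ IsSharplyTransitive LG (ℚ × Bool) 2 G := by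
  rintro ⟨haut, hsharp⟩
  let a : Fin 2 → ℚ × Bool := ![(0, false), (0, true)]
  let b : Fin 2 → ℚ × Bool := ![(0, true), (0, false)]
  have ha : Function.Injective a := by
    intro i i' h
    fin_cases i <;> fin_cases i' <;> simp_all [a]
  have hb : Function.Injective b := by
    intro i i' h
    fin_cases i <;> fin_cases i' <;> simp_all [b]
  have hab : b = ex ∘ a := by
    funext i
    fin_cases i
    · change ((0, true) : ℚ × Bool) = ex (0, false)
      simp [ex]
    · change ((0, false) : ℚ × Bool) = ex (0, true)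
      simp [ex]
  have hsame : SameType LG (ℚ × Bool) a b := by
    intro n R j
    rw [hab]
    exact (relMap_smul ex ex_mem R (a ∘ j)).symm
  obtain ⟨g, hg, -⟩ := hsharp a b ha hb hsame
  have hg0 : g • ((0, false) : ℚ × Bool) = (0, true) := hg 0
  have hg1 : g • ((0, true) : ℚ × Bool) = (0, false) := hg 1
  have hgg : g * g = 1 := by
    obtain ⟨e, -, he⟩ := hsharp a a ha ha (fun _ _ _ => Iff.rfl)
    rw [he (g * g) ?_, he 1 ?_]
    · exact fun i => one_smul _ _
    · intro i
      rw [mul_smul]
      fin_cases i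
      · change g • g • ((0, false) : ℚ × Bool) = (0, false)
        rw [hg0, hg1]
      · change g • g • ((0, true) : ℚ × Bool) = (0, true)
        rw [hg1, hg0]
  -- the point `b' = g a'`
  obtain ⟨b', hb'⟩ : ∃ b', b' = g • ((1, false) : ℚ × Bool) := ⟨_, rfl⟩
  have hb'2 : g • b' = (1, false) := by
    rw [hb', ← mul_smul, hgg, one_smul]
  let t : Fin 4 → ℚ × Bool := ![(0, false), (1, false), (0, true), b']
  have h1 : Structure.RelMap (orb t) t := ⟨1, Γ.one_mem, rfl⟩
  rw [← haut g] at h1
  obtain ⟨γ, hγ, h2⟩ := h1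
  have h20 : γ (0, false) = (0, true) := (congrFun h2 0).symm.trans hg0
  have h21 : γ (1, false) = b' := (congrFun h2 1).symm.trans hb'.symm
  have h22 : γ (0, true) = (0, false) := (congrFun h2 2).symm.trans hg1
  have h23 : γ b' = (1, false) := (congrFun h2 3).symm.trans hb'2
  have h3 : P (0, false) (1, false) (0, true) (1, true) := by
    unfold P
    simp
  rw [← hγ, h20, h21, h22] at h3
  obtain ⟨h4, -, -, h5, -⟩ := h3
  change true = b'.2 at h4
  change (0 : ℚ) ≠ b'.1 at h5
  have h6 := hγ (0, false) (1, false) (0, true) b'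
  rw [h20, h21, h22, h23] at h6
  unfold P at h6
  simp [← h4, h5] at h6
  have h7 : ¬ ((1 : ℚ) < 0) := by norm_num
  tauto

/-- **There is a relational Fraisse structure with strong amalgamation that admits no structurally
sharply 2-transitive action of any group.** -/
theorem result : ∃ (L : FirstOrder.Language.{0, 0}) (M : Type) (_ : L.Structure M),
    IsFraisseStructure L M ∧
      ∀ (G : Type u) [Group G] [MulAction G M], ¬ IsSharplyTransitive L M 2 G :=
  ⟨LG, ℚ × Bool, instS, isFraisse, fun G _ _ => not_sharply G⟩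

end Pool.Agent.Results.MP_d71e54_al.NoSharplyTwoTransitive
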